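import Pool.Agent.W495.TA.Stms

/-!
# The eigenbasis of the Tate module
-/

set_option autoImplicit false

namespace Pool.Agent.W67.TA

open NumberField Pool.Agent.H204R3.CM Pool.Agent.W547.KB Pool.Agent.W547.LD Module
open Pool.Agent.W495.TA
open scoped TensorProduct

noncomputable section

variable {p : ℕ} [Fact p.Prime] {ν : PadicAlgCl p ≃+* ℂ} {Ω : Type} [Field Ω] [CharZero Ω]
  {L : Type} [Field L]

theorem co_tmul (jO : L →+* Ω) {Y : RedAV p ν} (w : Wt Y.X L) (c : Ω) (x : Y.X.H1) :
    co jO w (c ⊗ₜ[ℚ] x) = c * jO (w.2 (x w.1)) := by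
  change LinearMap.liftBaseChange Ω (evO jO w) (c ⊗ₜ[ℚ] x) = _
  rw [LinearMap.liftBaseChange_tmul]
  rfl

theorem bij_emb [NumberField L] (j : L →+* ℂ) {X : CMAV} (hB : Big X j) (i : X.I) :
    Function.Bijective (fun φ : (X.factor i).E →+* L => j.comp φ) := by
  constructor
  · intro φ φ' h
    ext a
    exact j.injective (RingHom.congr_fun h a)
  · intro ψ
    exact hB i ψ

theorem card_emb [NumberField L] (j : L →+* ℂ) {X : CMAV} (hB : Big X j) (i : X.I) :
    Nat.card ((X.factor i).E →+* L) = finrank ℚ (X.factor i).E := by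
  rw [Nat.card_eq_of_bijective _ (bij_emb j hB i), Nat.card_eq_fintype_card]
  exact Embeddings.card _ ℂ

theorem finite_emb [NumberField L] (j : L →+* ℂ) {X : CMAV} (hB : Big X j) (i : X.I) :
    Finite ((X.factor i).E →+* L) :=
  Finite.of_injective _ (bij_emb j hB i).1

theorem card_wt [NumberField L] (j : L →+* ℂ) {X : CMAV} (hB : Big X j) :
    Nat.card (Wt X L) = finrank ℚ X.H1 := by
  classical
  have := fun i => finite_emb j hB i
  have h4 : finrank ℚ X.H1 = ∑ i, finrank ℚ (X.factor i).E := Module.finrank_pi_fintype ℚ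
  rw [h4, Nat.card_sigma]
  exact Finset.sum_congr rfl fun q _ => card_emb j hB q

theorem finite_wt [NumberField L] (j : L →+* ℂ) {X : CMAV} (hB : Big X j) :
    Finite (Wt X L) := by
  have := fun i => finite_emb j hB i
  infer_instance

/-- Linear independence of the coordinates. -/
theorem linInd_co [NumberField L] (jO : L →+* Ω) (Y : RedAV p ν)
    [Fintype (Wt Y.X L)] (c : Wt Y.X L → Ω) (hc : ∑ w, c w • co jO w = 0) : c = 0 := by
  classical
  funext w
  obtain ⟨i, φ⟩ := w
  have h1 : ∀ x : (Y.X.factor i).E, ∑ w : Wt Y.X L,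
      c w * jO (w.2 ((Pi.single i x : Y.X.H1) w.1)) = 0 := by
    intro x
    have h2 := LinearMap.congr_fun hc ((1 : Ω) ⊗ₜ[ℚ] (Pi.single i x : Y.X.H1))
    rw [LinearMap.sum_apply, LinearMap.zero_apply] at h2
    rw [← h2]
    refine Finset.sum_congr rfl fun w _ => ?_
    rw [LinearMap.smul_apply, co_tmul, one_mul, smul_eq_mul]
  -- the embeddings into `Ω`
  have hinj : Function.Injective (fun φ : (Y.X.factor i).E →+* L =>
      ((jO.comp φ : (Y.X.factor i).E →+* Ω) : (Y.X.factor i).E →* Ω)) := by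
    intro φ φ' h
    ext a
    exact jO.injective (DFunLike.congr_fun h a)
  have hli := (linearIndependent_monoidHom (Y.X.factor i).E Ω).comp _ hinj
  let : Fintype ((Y.X.factor i).E →+* L) :=
    Fintype.ofInjective (fun φ => (⟨i, φ⟩ : Wt Y.X L)) (fun φ φ' h => by
      simpa using h)
  have h3 := Fintype.linearIndependent_iff.1 hli (fun φ => c ⟨i, φ⟩) (by
    funext x
    rw [Pi.zero_apply, ← h1 x, Fintype.sum_apply]
    refine Fintype.sum_of_injective (fun φ => (⟨i, φ⟩ : Wt Y.X L)) (fun φ φ' h => by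
      simpa using h) _ _ ?_ ?_
    · rintro ⟨i', φ'⟩ hw
      have hi : i' ≠ i := by
        rintro rfl
        exact hw ⟨φ', rfl⟩
      dsimp only
      rw [Pi.single_eq_of_ne hi, map_zero, map_zero, mul_zero]
    · intro φ
      dsimp only
      rw [Pi.single_eq_same]
      rfl)
  exact h3 φ

theorem basis : S_basis := by
  classical
  intro p _ ν Ω _ _ L _ _ j jO Y hB
  have : Finite (Wt Y.X L) := finite_wt j hB
  let : Fintype (Wt Y.X L) := Fintype.ofFinite _
  -- the evaluation
  let T : TM Ω Y →ₗ[Ω] (Wt Y.X L → Ω) := LinearMap.pi fun w => co jO w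
  have hrank : finrank Ω (TM Ω Y) = finrank Ω (Wt Y.X L → Ω) := by
    rw [Module.finrank_fintype_fun_eq_card, Module.finrank_baseChange, ← card_wt j hB,
      Nat.card_eq_fintype_card]
  have hsurj : Function.Surjective T := by
    rw [← LinearMap.range_eq_top]
    by_contra hne
    obtain ⟨f, hf, hf2⟩ := Submodule.exists_le_ker_of_lt_top _ (lt_top_iff_ne_top.2 hne)
    apply hf
    have h1 : (∑ w, f (Pi.single w 1) • co jO w : TM Ω Y →ₗ[Ω] Ω) = 0 := by
      refine LinearMap.ext fun v => ?_
      have h5 : T v = ∑ w, (T v w) • (Pi.single w (1 : Ω) : Wt Y.X L → Ω) := by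
        funext w'
        rw [Fintype.sum_apply]
        simp [Pi.single_apply]
      have h6 : f (T v) = 0 := hf2 ⟨v, rfl⟩
      rw [h5, map_sum] at h6
      rw [LinearMap.sum_apply, LinearMap.zero_apply, ← h6]
      refine Finset.sum_congr rfl fun w _ => ?_
      rw [LinearMap.smul_apply, map_smul, smul_eq_mul, smul_eq_mul, mul_comm]
      rfl
    have h2 := linInd_co jO Y _ h1
    refine LinearMap.pi_ext' fun w => ?_
    ext
    simpa using congrFun h2 w
  have hinj : Function.Injective T := by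
    have : FiniteDimensional Ω (TM Ω Y) := inferInstance
    exact (LinearMap.injective_iff_surjective_of_finrank_eq_finrank hrank).2 hsurj
  let T' : TM Ω Y ≃ₗ[Ω] (Wt Y.X L → Ω) := LinearEquiv.ofBijective T ⟨hinj, hsurj⟩
  refine ⟨Basis.ofEquivFun T', ?_, ?_⟩
  · intro w
    have h := congrFun (T'.apply_symm_apply (Pi.single w 1)) w
    rw [Pi.single_eq_same] at h
    rw [Basis.coe_ofEquivFun]
    exact h
  · intro w w' hw
    have h := congrFun (T'.apply_symm_apply (Pi.single w' 1)) w
    rw [Pi.single_eq_of_ne hw] at h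
    rw [Basis.coe_ofEquivFun]
    exact h

end

end Pool.Agent.W67.TA
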